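import Pool.Agent.Q11.FM.WrMain

/-!
# MP_65b575_al: finitely presented monsters of types (2) and (6) may be taken to be quotients of the
triangle group (2,3,7)
-/

set_option autoImplicit false

namespace Pool.Agent.Results.MP_65b575_al.HurwitzMonsters

open scoped commutatorElement

/-- type (2): bounded exponent -/
def T2 (G : Type) [Group G] : Prop := ∃ n : ℕ, 1 ≤ n ∧ ∀ g : G, g ^ n = 1

/-- type (6): finitely many conjugacy classes -/
def T6 (G : Type) [Group G] : Prop := Finite (ConjClasses G)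

/-- torsion groups: every element has finite order -/
def Tor (G : Type) [Group G] : Prop := ∀ g : G, ∃ n : ℕ, 1 ≤ n ∧ g ^ n = 1

/-- every subgroup of finite index has finite abelianization -/
def FAb (G : Type) [Group G] : Prop := ∀ A : Subgroup G, A.FiniteIndex → (⁅A, A⁆).FiniteIndex

/-- a quotient of the triangle group (2,3,7) -/
def Hurwitz (G : Type) [Group G] : Prop :=
  ∃ x y : G, x ^ 2 = 1 ∧ y ^ 3 = 1 ∧ (x * y) ^ 7 = 1 ∧ Subgroup.closure {x, y} = ⊤

/-- `Q` has a subgroup of finite index isomorphic to one of a direct power of `G` -/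
def PowComm (G Q : Type) [Group G] [Group Q] : Prop :=
  ∃ k : ℕ, 1 ≤ k ∧ ∃ A : Subgroup Q, A.FiniteIndex ∧
    ∃ f : A →* (Fin k → G), Function.Injective f ∧ f.range.FiniteIndex

/-- there is a finitely presented infinite group with property `P` -/
def FPMonster (P : ∀ (G : Type) [Group G], Prop) : Prop :=
  ∃ (G : Type) (_ : Group G), Infinite G ∧ Group.IsFinitelyPresented G ∧ P G

/-- Every infinite finitely presented group all of whose subgroups of finite index have finite
abelianization has a direct power commensurable with a finitely presented quotient of the triangle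
group (2,3,7); finitely presented monsters of type (2), of type (6), and infinite finitely presented
torsion groups exist if and only if there are such quotients of that group. -/
theorem result :
    (∀ (G : Type) [Group G], Infinite G → Group.IsFinitelyPresented G → FAb G →
      ∃ (Q : Type) (_ : Group Q), Infinite Q ∧ Group.IsFinitelyPresented Q ∧ Hurwitz Q ∧
        PowComm G Q) ∧
    (FPMonster (fun G _ => T2 G) ↔ FPMonster (fun G _ => T2 G ∧ Hurwitz G)) ∧
    (FPMonster (fun G _ => T6 G) ↔ FPMonster (fun G _ => T6 G ∧ Hurwitz G)) ∧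
    (FPMonster (fun G _ => Tor G) ↔ FPMonster (fun G _ => Tor G ∧ Hurwitz G)) := by
  refine ⟨?_, ⟨?_, ?_⟩, ⟨?_, ?_⟩, ⟨?_, ?_⟩⟩
  · intro G _ hi hf hab
    obtain ⟨Q, _, hQ, hH⟩ := Q11.FM.exists_hurwitz (Q11.FM.good_comm G hab) G
      ⟨hi, hf, Q11.FM.PowComm.refl G⟩
    exact ⟨Q, _, hQ.inf, hQ.fp, hH, hQ.prop⟩
  · rintro ⟨G, _, hi, hf, h⟩
    obtain ⟨Q, _, hQ, hH⟩ := Q11.FM.exists_hurwitz Q11.FM.good_exp G ⟨hi, hf, h⟩
    exact ⟨Q, _, hQ.inf, hQ.fp, hQ.prop, hH⟩
  · rintro ⟨G, _, hi, hf, h, -⟩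
    exact ⟨G, _, hi, hf, h⟩
  · rintro ⟨G, _, hi, hf, h⟩
    obtain ⟨Q, _, hQ, hH⟩ := Q11.FM.exists_hurwitz Q11.FM.good_six G ⟨hi, hf, h⟩
    exact ⟨Q, _, hQ.inf, hQ.fp, hQ.prop, hH⟩
  · rintro ⟨G, _, hi, hf, h, -⟩
    exact ⟨G, _, hi, hf, h⟩
  · rintro ⟨G, _, hi, hf, h⟩
    obtain ⟨Q, _, hQ, hH⟩ := Q11.FM.exists_hurwitz Q11.FM.good_torsion G ⟨hi, hf, h⟩
    exact ⟨Q, _, hQ.inf, hQ.fp, hQ.prop, hH⟩
  · rintro ⟨G, _, hi, hf, h, -⟩
    exact ⟨G, _, hi, hf, h⟩

end Pool.Agent.Results.MP_65b575_al.HurwitzMonsters
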