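import Pool.Agent.Q252.DV.B
import Pool.Agent.Q11.FM.Six

/-!
# MP_65b575_al: copies of the rational numbers in monsters of types (5) and (6)

In a group of type (6) some power `g ^ L`, with `L` independent of `g`, of every element `g` of
infinite order lies in a subgroup isomorphic to the additive group of the rational numbers, and the
subgroup generated by all such subgroups has a quotient of type (2).  A group is of type (5) exactly
when all its elements lie in homomorphic images of the rational numbers.
-/

set_option autoImplicit false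

namespace Pool.Agent.Results.MP_65b575_al.RationalSubgroups

universe u

/-- type (2): bounded exponent -/
def T2 (G : Type u) [Group G] : Prop := ∃ n : ℕ, 1 ≤ n ∧ ∀ g : G, g ^ n = 1

/-- type (3): not cyclic, and every proper subgroup is cyclic -/
def T3 (G : Type u) [Group G] : Prop := ¬ IsCyclic G ∧ ∀ H : Subgroup G, H ≠ ⊤ → IsCyclic H

/-- type (5): complete, every element has roots of all orders -/
def T5 (G : Type u) [Group G] : Prop := ∀ (g : G) (m : ℕ), 1 ≤ m → ∃ h : G, h ^ m = g

/-- type (6): finitely many conjugacy classes -/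
def T6 (G : Type u) [Group G] : Prop := Finite (ConjClasses G)

/-- there is a finitely presented infinite group with property `P` -/
def FPMonster (P : ∀ (G : Type u) [Group G], Prop) : Prop :=
  ∃ (G : Type u) (_ : Group G), Infinite G ∧ Group.IsFinitelyPresented G ∧ P G

/-- the subgroup generated by all subgroups isomorphic to the additive group of the rational numbers -/
def RatPart (G : Type u) [Group G] : Subgroup G :=
  Subgroup.closure {g : G | ∃ f : Multiplicative ℚ →* G, Function.Injective f ∧ g ∈ f.range}

/-- all abelian subgroups are finitely generated -/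
def AbelianFG (G : Type u) [Group G] : Prop :=
  ∀ A : Subgroup G, (∀ a ∈ A, ∀ b ∈ A, a * b = b * a) → A.FG

lemma ratPart_normal (G : Type u) [Group G] : (RatPart G).Normal := by
  refine ⟨fun n hn g => ?_⟩
  unfold RatPart at hn ⊢
  induction hn using Subgroup.closure_induction with
  | mem x hx =>
    obtain ⟨f, hf, y, hy⟩ := hx
    refine Subgroup.subset_closure ⟨(MulAut.conj g).toMonoidHom.comp f, (MulAut.conj g).injective.comp hf, y, ?_⟩
    rw [← hy]
    rfl
  | one => rw [mul_one, mul_inv_cancel]; exact Subgroup.one_mem _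
  | mul x y _ _ hx hy =>
    have : g * (x * y) * g⁻¹ = (g * x * g⁻¹) * (g * y * g⁻¹) := by group
    rw [this]
    exact Subgroup.mul_mem _ hx hy
  | inv x _ hx =>
    have : g * x⁻¹ * g⁻¹ = (g * x * g⁻¹)⁻¹ := by group
    rw [this]
    exact Subgroup.inv_mem _ hx

lemma six (G : Type u) [Group G] (h : T6 G) :
    ∃ L : ℕ, 1 ≤ L ∧ (∀ g : G, IsOfFinOrder g → g ^ L = 1) ∧ ∀ g : G, ¬ IsOfFinOrder g →
      ∃ f : Multiplicative ℚ →* G, f (Multiplicative.ofAdd 1) = g ^ L ∧ Function.Injective f := by
  have : Finite (ConjClasses G) := h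
  exact Q252.DV.six_lines G

lemma two_or_line (G : Type u) [Group G] (h : T6 G) :
    T2 G ∨ ∃ f : Multiplicative ℚ →* G, Function.Injective f := by
  obtain ⟨L, hL, h1, h2⟩ := six G h
  by_cases hg : ∀ g : G, IsOfFinOrder g
  · exact Or.inl ⟨L, hL, fun g => h1 g (hg g)⟩
  · push Not at hg
    obtain ⟨g, hg⟩ := hg
    obtain ⟨f, -, hf⟩ := h2 g hg
    exact Or.inr ⟨f, hf⟩

lemma quot_two (G : Type u) [Group G] (h : T6 G) (hn : (RatPart G).Normal) : T2 (G ⧸ RatPart G) := by
  obtain ⟨L, hL, h1, h2⟩ := six G h
  refine ⟨L, hL, fun x => ?_⟩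
  obtain ⟨g, rfl⟩ := QuotientGroup.mk_surjective x
  rw [← QuotientGroup.mk_pow, QuotientGroup.eq_one_iff]
  by_cases hg : IsOfFinOrder g
  · rw [h1 g hg]
    exact Subgroup.one_mem _
  · obtain ⟨f, hf1, hf⟩ := h2 g hg
    exact Subgroup.subset_closure ⟨f, hf, Multiplicative.ofAdd 1, hf1⟩

lemma ofAdd_one_ne : (Multiplicative.ofAdd (1 : ℚ)) ≠ 1 := by
  intro h
  have : (1 : ℚ) = 0 := Multiplicative.ofAdd.injective h
  exact one_ne_zero this

lemma ratPart_simple (G : Type u) [Group G] [IsSimpleGroup G] (h : T6 G) : T2 G ∨ RatPart G = ⊤ := by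
  rcases two_or_line G h with h2 | ⟨f, hf⟩
  · exact Or.inl h2
  · right
    rcases (ratPart_normal G).eq_bot_or_eq_top with h3 | h3
    · exfalso
      have h4 : f (Multiplicative.ofAdd 1) ∈ RatPart G := Subgroup.subset_closure ⟨f, hf, _, rfl⟩
      rw [h3, Subgroup.mem_bot, ← map_one f] at h4
      exact ofAdd_one_ne (hf h4)
    · exact h3

lemma range_comm (G : Type u) [Group G] (f : Multiplicative ℚ →* G) :
    ∀ a ∈ f.range, ∀ b ∈ f.range, a * b = b * a := by
  rintro _ ⟨x, rfl⟩ _ ⟨y, rfl⟩
  rw [← map_mul, mul_comm, map_mul]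

lemma abelian_fg (G : Type u) [Group G] (hA : AbelianFG G) :
    (T5 G → Subsingleton G) ∧ (T6 G → T2 G) := by
  constructor
  · intro h5
    refine ⟨fun a b => ?_⟩
    have h1 : ∀ g : G, g = 1 := by
      intro g
      obtain ⟨f, hf⟩ := (Q252.DV.five_lines G).1 h5 g
      rw [← hf]
      exact Q252.DV.line_fg f (hA _ (range_comm G f)) _
    rw [h1 a, h1 b]
  · intro h6
    rcases two_or_line G h6 with h2 | ⟨f, hf⟩
    · exact h2
    · exfalso
      have h1 := Q252.DV.line_fg f (hA _ (range_comm G f)) (Multiplicative.ofAdd 1)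
      rw [← map_one f] at h1
      exact ofAdd_one_ne (hf h1)

lemma three (G : Type u) [Group G] (hfg : Group.FG G) (h3 : T3 G) : AbelianFG G := by
  intro A _
  by_cases hA : A = ⊤
  · rw [hA]
    exact Group.FG.out
  · obtain ⟨g, hg⟩ := (Subgroup.isCyclic_iff_exists_zpowers_eq_top A).1 (h3.2 A hA)
    rw [← hg, Subgroup.zpowers_eq_closure]
    exact ⟨{g}, by rw [Finset.coe_singleton]⟩

/-- Copies of the rational numbers in groups of types (5) and (6):
* (i) in a group of type (6) there is `L ≥ 1` such that the elements of finite order have `L`-th power `1`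
  and the `L`-th power of every other element is the image of `1` under an injective homomorphism from
  the additive group of the rational numbers;
* (ii) in a group of type (6) the subgroup generated by the copies of the rational numbers is normal
  with a quotient of type (2);
* (iii) if there is a finitely presented monster of type (6), then there is one of type (2), or a
  simple one of type (6) generated by copies of the rational numbers;
* (iv) a group is of type (5) if and only if all its elements are images of `1` under homomorphisms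
  from the additive group of the rational numbers;
* (v) a group all of whose abelian subgroups are finitely generated is of type (5) only if it is
  trivial, and of type (6) only if it is of type (2);
* (vi) a finitely generated group of type (3) is not of type (5), and of type (6) only if it is of type (2);
* (vii) a group of types (2) and (5) is trivial. -/
theorem result :
    (∀ (G : Type u) [Group G], T6 G →
      ∃ L : ℕ, 1 ≤ L ∧ (∀ g : G, IsOfFinOrder g → g ^ L = 1) ∧ ∀ g : G, ¬ IsOfFinOrder g →
        ∃ f : Multiplicative ℚ →* G, f (Multiplicative.ofAdd 1) = g ^ L ∧ Function.Injective f) ∧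
    (∀ (G : Type u) [Group G], T6 G → ∃ _ : (RatPart G).Normal, T2 (G ⧸ RatPart G)) ∧
    (FPMonster.{u} (fun G _ => T6 G) → FPMonster.{u} (fun G _ => T2 G) ∨
      FPMonster.{u} (fun G _ => T6 G ∧ IsSimpleGroup G ∧ RatPart G = ⊤)) ∧
    (∀ (G : Type u) [Group G], T5 G ↔
      ∀ g : G, ∃ f : Multiplicative ℚ →* G, f (Multiplicative.ofAdd 1) = g) ∧
    (∀ (G : Type u) [Group G], AbelianFG G → (T5 G → Subsingleton G) ∧ (T6 G → T2 G)) ∧
    (∀ (G : Type u) [Group G], Group.FG G → T3 G → ¬ T5 G ∧ (T6 G → T2 G)) ∧
    (∀ (G : Type u) [Group G], T2 G → T5 G → Subsingleton G) := by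
  refine ⟨fun G _ h => six G h, fun G _ h => ⟨ratPart_normal G, quot_two G h _⟩, ?_, fun G _ => Q252.DV.five_lines G,
    fun G _ h => abelian_fg G h, ?_, ?_⟩
  · rintro ⟨G, _, hinf, hfp, h⟩
    have : Finite (ConjClasses G) := h
    obtain ⟨N, _, _, M, _, hs, hi, hp, hc⟩ := Q11.FM.simple_of_six (G := G)
    rcases ratPart_simple (N ⧸ M) hc with h2 | h2
    · exact Or.inl ⟨N ⧸ M, inferInstance, hi, hp, h2⟩
    · exact Or.inr ⟨N ⧸ M, inferInstance, hi, hp, hc, hs, h2⟩
  · intro G _ hfg h3
    obtain ⟨h5, h6⟩ := abelian_fg G (three G hfg h3)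
    refine ⟨fun h => h3.1 ?_, h6⟩
    have := h5 h
    exact isCyclic_of_subsingleton
  · rintro G _ ⟨n, hn, hn1⟩ h5
    refine ⟨fun a b => ?_⟩
    obtain ⟨x, rfl⟩ := h5 a n hn
    obtain ⟨y, rfl⟩ := h5 b n hn
    rw [hn1, hn1]

end Pool.Agent.Results.MP_65b575_al.RationalSubgroups
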