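import Pool.Agent.Q11.FM.Six
import Pool.Agent.Q11.FM.Three

/-!
# MP_65b575_al: finitely presented monsters of types (3), (4) and (6) may be taken simple

An infinite finitely presented group with finitely many conjugacy classes has a normal subgroup `N` of
finite index with an infinite finitely presented simple quotient with finitely many conjugacy classes.
The quotient by the centre of an infinite finitely presented group of type (3) is infinite, finitely
presented, simple and of type (3).  Finitely presented monsters of type (4) are simple, and are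
monsters of types (2) and (3).
-/

set_option autoImplicit false

namespace Pool.Agent.Results.MP_65b575_al.SimpleSuffices

universe u

/-- type (2): bounded exponent -/
def T2 (G : Type u) [Group G] : Prop := ∃ n : ℕ, 1 ≤ n ∧ ∀ g : G, g ^ n = 1

/-- type (3): not cyclic, every proper subgroup is cyclic -/
def T3 (G : Type u) [Group G] : Prop := ¬ IsCyclic G ∧ ∀ H : Subgroup G, H ≠ ⊤ → IsCyclic H

/-- type (4): for some prime `p`, every nontrivial proper subgroup is cyclic of order `p` -/
def T4 (G : Type u) [Group G] : Prop :=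
  ∃ p : ℕ, p.Prime ∧ ∀ H : Subgroup G, H ≠ ⊥ → H ≠ ⊤ → IsCyclic H ∧ Nat.card H = p

/-- type (6): finitely many conjugacy classes -/
def T6 (G : Type u) [Group G] : Prop := Finite (ConjClasses G)

/-- there is a finitely presented infinite group with property `P` -/
def FPMonster (P : ∀ (G : Type u) [Group G], Prop) : Prop :=
  ∃ (G : Type u) (_ : Group G), Infinite G ∧ Group.IsFinitelyPresented G ∧ P G

lemma fg_of_fp (G : Type u) [Group G] [h : Group.IsFinitelyPresented G] : Group.FG G := by
  obtain ⟨n, φ, hφ, -⟩ := h.out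
  exact Group.fg_of_surjective hφ

lemma fg_of_cyclic (G : Type u) [Group G] [IsCyclic G] : Group.FG G := by
  obtain ⟨g, hg⟩ := IsCyclic.exists_generator (α := G)
  rw [Group.fg_iff]
  refine ⟨{g}, ?_, Set.finite_singleton g⟩
  rw [← Subgroup.zpowers_eq_closure, eq_top_iff]
  exact fun x _ => hg x

/-- An infinite finitely presented group of type (6) has a normal subgroup `N` of finite index with
a quotient `N ⧸ M` which is infinite, finitely presented, simple and of type (6). The quotient by the
centre of an infinite finitely presented group of type (3) is infinite, finitely presented, simple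
and of type (3). An infinite finitely presented group of type (4) is simple and of types (2) and (3).
So for types (3) and (6) finitely presented monsters exist if and only if simple ones do. -/
theorem result :
    (∀ (G : Type u) [Group G] [Infinite G] [Group.IsFinitelyPresented G], T6 G →
      ∃ (N : Subgroup G) (_ : N.FiniteIndex) (_ : N.Normal) (M : Subgroup N) (_ : M.Normal),
        Infinite (N ⧸ M) ∧ Group.IsFinitelyPresented (N ⧸ M) ∧ T6 (N ⧸ M) ∧
        IsSimpleGroup (N ⧸ M)) ∧
    (FPMonster.{u} (fun G _ => T6 G) ↔ FPMonster.{u} (fun G _ => T6 G ∧ IsSimpleGroup G)) ∧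
    (∀ (G : Type u) [Group G] [Infinite G] [Group.IsFinitelyPresented G], T3 G →
      Infinite (G ⧸ Subgroup.center G) ∧ Group.IsFinitelyPresented (G ⧸ Subgroup.center G) ∧
      T3 (G ⧸ Subgroup.center G) ∧ IsSimpleGroup (G ⧸ Subgroup.center G)) ∧
    (FPMonster.{u} (fun G _ => T3 G) ↔ FPMonster.{u} (fun G _ => T3 G ∧ IsSimpleGroup G)) ∧
    (∀ (G : Type u) [Group G] [Infinite G] [Group.IsFinitelyPresented G], T4 G →
      IsSimpleGroup G ∧ T2 G ∧ T3 G) := by
  have h3 : ∀ (G : Type u) [Group G] [Infinite G] [Group.IsFinitelyPresented G], T3 G →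
      Infinite (G ⧸ Subgroup.center G) ∧ Group.IsFinitelyPresented (G ⧸ Subgroup.center G) ∧
      T3 (G ⧸ Subgroup.center G) ∧ IsSimpleGroup (G ⧸ Subgroup.center G) := by
    intro G _ _ _ h
    have h' : Q11.FM.T3 G := h
    have hfg : Group.FG G := fg_of_fp G
    obtain ⟨hc, hs, hi, h3⟩ := h'.quot
    refine ⟨hi, ?_, h3, hs⟩
    have : Group.FG (Subgroup.center G) := fg_of_cyclic _
    exact Group.IsFinitelyPresented.quotient _ (Subgroup.IsFinitelyNormallyGenerated.of_FG _)
  refine ⟨?_, ⟨?_, ?_⟩, h3, ⟨?_, ?_⟩, ?_⟩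
  · intro G _ _ _ h
    have : Finite (ConjClasses G) := h
    obtain ⟨N, hf, hn, M, hm, hs, hi, hp, hc⟩ := Q11.FM.simple_of_six (G := G)
    exact ⟨N, hf, hn, M, hm, hi, hp, hc, hs⟩
  · rintro ⟨G, _, hinf, hfp, h⟩
    have : Finite (ConjClasses G) := h
    obtain ⟨N, _, _, M, _, hs, hi, hp, hc⟩ := Q11.FM.simple_of_six (G := G)
    exact ⟨N ⧸ M, inferInstance, hi, hp, hc, hs⟩
  · rintro ⟨G, _, hinf, hfp, h, -⟩
    exact ⟨G, _, hinf, hfp, h⟩
  · rintro ⟨G, _, hinf, hfp, h⟩
    exact ⟨G ⧸ Subgroup.center G, inferInstance, h3 G h⟩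
  · rintro ⟨G, _, hinf, hfp, h, -⟩
    exact ⟨G, _, hinf, hfp, h⟩
  · intro G _ _ _ h
    have h' : Q11.FM.T4 G := h
    have hfg : Group.FG G := fg_of_fp G
    exact ⟨h'.simple, h'.exponent, h'.t3⟩

end Pool.Agent.Results.MP_65b575_al.SimpleSuffices
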