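import Pool.Agent.Q11.FM.Dich

/-!
# MP_65b575_al: a dichotomy for groups with finitely many conjugacy classes (type (6))

Such a group has bounded exponent (type (2)), or it has, for every `N ≥ 2`, an element `h` of
infinite order and an element `t` with `t h t⁻¹ = h ^ (N ^ m)`, with `m` at most the number of
conjugacy classes, and exponential growth.  In particular types (6) and (7) together imply type (2).
-/

set_option autoImplicit false

namespace Pool.Agent.Results.MP_65b575_al.SixDichotomy

open scoped Pointwise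

universe u

/-- type (2): bounded exponent -/
def T2 (G : Type u) [Group G] : Prop := ∃ n : ℕ, 1 ≤ n ∧ ∀ g : G, g ^ n = 1

/-- type (6): finitely many conjugacy classes -/
def T6 (G : Type u) [Group G] : Prop := Finite (ConjClasses G)

/-- the growth function: the number of elements of word length at most `r` with respect to `S` -/
noncomputable def growth {G : Type u} [Group G] (S : Set G) (r : ℕ) : ℕ :=
  Nat.card ↥((insert 1 (S ∪ S⁻¹)) ^ r)

/-- type (7): intermediate growth -/
def T7 (G : Type u) [Group G] : Prop :=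
  ∃ S : Set G, S.Finite ∧ Subgroup.closure S = ⊤ ∧
    (¬ ∃ C d : ℕ, ∀ r : ℕ, growth S r ≤ C * (r + 1) ^ d) ∧
    ∀ c : ℝ, 0 < c → ∃ r : ℕ, (growth S r : ℝ) < Real.exp (c * r)

/-- for every `N ≥ 2` there are an element `h` of infinite order and an element `t` with
`t h t⁻¹ = h ^ (N ^ m)`, where `m ≥ 1` is at most the number of conjugacy classes -/
def BaumslagSolitar (G : Type u) [Group G] : Prop :=
  ∀ N : ℕ, 2 ≤ N → ∃ m : ℕ, 1 ≤ m ∧ m ≤ Nat.card (ConjClasses G) ∧
    ∃ h t : G, ¬ IsOfFinOrder h ∧ t * h * t⁻¹ = h ^ (N ^ m)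

/-- exponential growth -/
def ExpGrowth (G : Type u) [Group G] : Prop :=
  ∀ S : Set G, S.Finite → Subgroup.closure S = ⊤ →
    ∃ c : ℝ, 0 < c ∧ ∀ r : ℕ, Real.exp (c * r) ≤ growth S r

lemma dichotomy {G : Type u} [Group G] (h6 : T6 G) : T2 G ∨ (BaumslagSolitar G ∧ ExpGrowth G) := by
  have : Finite (ConjClasses G) := h6
  by_cases h : ∀ g : G, IsOfFinOrder g
  · exact Or.inl (Q11.FM.exponent_of_torsion h)
  · push Not at h
    obtain ⟨g, hg⟩ := h
    have h1 : BaumslagSolitar G := fun N hN => Q11.FM.bs_of_nontorsion hg hN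
    refine Or.inr ⟨h1, fun S hS hgen => ?_⟩
    obtain ⟨m, hm, -, h, t, hh, ht⟩ := h1 2 le_rfl
    have hq : 2 ≤ 2 ^ m := by
      calc 2 = 2 ^ 1 := (pow_one 2).symm
        _ ≤ 2 ^ m := Nat.pow_le_pow_right (by norm_num) hm
    exact Q11.FM.exp_growth hS hgen hq ht hh

/-- A group of type (6) is of type (2), or has for every `N ≥ 2` elements `h` of infinite order and
`t` with `t h t⁻¹ = h ^ (N ^ m)`, `m` at most the number of conjugacy classes, and exponential
growth; hence a group of types (6) and (7) is of type (2). -/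
theorem result :
    (∀ (G : Type u) [Group G], T6 G → T2 G ∨ (BaumslagSolitar G ∧ ExpGrowth G)) ∧
    (∀ (G : Type u) [Group G], T6 G → T7 G → T2 G) := by
  refine ⟨fun G _ h => dichotomy h, ?_⟩
  rintro G _ h ⟨S, hS, hgen, -, h7⟩
  rcases dichotomy h with h2 | ⟨-, h2⟩
  · exact h2
  · exfalso
    obtain ⟨c, hc, h3⟩ := h2 S hS hgen
    obtain ⟨r, hr⟩ := h7 c hc
    exact absurd (h3 r) (not_le.2 hr)

end Pool.Agent.Results.MP_65b575_al.SixDichotomy
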